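import Pool.Agent.SAWP.Meas

/-!
# SAWP, final part: transfer to the frozen statement (module F3)

`law_eq`: for independent events `A e` of probability `p`, the map `ω ↦ (e ↦ decide (ω ∈ A e))` has law `perc p`
(`ProbabilityTheory.iIndepSet` → `iIndepFun` of the indicator maps to `Bool`, `iIndepFun_iff_map_fun_eq_infinitePi_map`; see Pool/Agent/H36/Perc/Model.lean `law_bool`).
`graph_conn`, `graph_sig`: the graph of the frozen statement for the configuration `cfgOfSet`: adjacency is `Step (Op ω')`, so reachability is `Conn (Op ω')` and the number of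
`n`-step paths from `v` (pairs of an endpoint and a `SimpleGraph.Walk` that is a path of length `n`) is `sig ω' v n` (bijection `walk ↦ support`).
-/

set_option autoImplicit false

open MeasureTheory Filter Topology

namespace Pool.Agent.SAWP

open Classical in
/-- The configuration of the events `A e` at `ω`. -/
noncomputable def cfgAt {Ω : Type} (A : (ℤ × ℤ) × Bool → Set Ω) (ω : Ω) : Cfg :=
  fun e => decide (ω ∈ A e)

theorem law_eq {Ω : Type} [MeasurableSpace Ω] (P : Measure Ω) [IsProbabilityMeasure P]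
    (A : (ℤ × ℤ) × Bool → Set Ω) (hA : ∀ e, MeasurableSet (A e)) (p : unitInterval)
    (hp : ∀ e, P (A e) = ENNReal.ofReal p.1) (hind : ProbabilityTheory.iIndepSet A P) :
    AEMeasurable (cfgAt A) P ∧ P.map (cfgAt A) = perc p := by
  classical
  have h1 : ProbabilityTheory.iIndepFun (fun e => (A e).indicator fun _ => (1 : ℕ)) P :=
    hind.iIndepFun_indicator
  have h2 : ProbabilityTheory.iIndepFun (fun e ω => cfgAt A ω e) P := by
    have h := h1.comp (fun _ (k : ℕ) => decide (k = 1)) (fun _ => measurable_of_countable _)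
    convert h using 1
    funext e ω
    simp only [cfgAt, Function.comp]
    by_cases hω : ω ∈ A e <;> simp [hω]
  have hm : ∀ e, Measurable (fun ω => cfgAt A ω e) := by
    intro e
    have : (fun ω => cfgAt A ω e) =
        (fun k : ℕ => decide (k = 1)) ∘ ((A e).indicator fun _ => (1 : ℕ)) := by
      funext ω
      simp only [cfgAt, Function.comp]
      by_cases hω : ω ∈ A e <;> simp [hω]
    rw [this]
    exact (measurable_of_countable _).comp (measurable_const.indicator (hA e))
  have hm' : Measurable (cfgAt A) := measurable_pi_iff.2 hm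
  refine ⟨hm'.aemeasurable, ?_⟩
  have h3 := h2.map_fun_eq_infinitePi_map hm
  have h4 : (fun ω e => cfgAt A ω e) = cfgAt A := rfl
  rw [h4] at h3
  rw [h3]
  unfold perc
  congr 1
  funext e
  have hpm : IsProbabilityMeasure (P.map (fun ω => cfgAt A ω e)) :=
    Measure.isProbabilityMeasure_map (hm e).aemeasurable
  have ht : P.map (fun ω => cfgAt A ω e) {true} = bern p {true} := by
    rw [Measure.map_apply (hm e) (measurableSet_singleton _)]
    have : (fun ω => cfgAt A ω e) ⁻¹' {true} = A e := by
      ext ω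
      simp [cfgAt]
    rw [this, hp e]
    simp [bern]
  have hc : ({false} : Set Bool) = {true}ᶜ := by ext b; cases b <;> simp
  apply Measure.ext_of_singleton
  intro b
  cases b with
  | true => exact ht
  | false =>
    rw [hc, prob_compl_eq_one_sub (measurableSet_singleton _),
      prob_compl_eq_one_sub (measurableSet_singleton _), ht]

/-- Adjacency in the graph of the frozen statement is `Step`. -/
theorem graph_adj {Ω : Type} (A : (ℤ × ℤ) × Bool → Set Ω) (ω : Ω) (x y : ℤ × ℤ) :
    (SimpleGraph.fromRel (fun x y : ℤ × ℤ =>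
        (y = (x.1 + 1, x.2) ∧ ω ∈ A (x, false)) ∨
        (y = (x.1, x.2 + 1) ∧ ω ∈ A (x, true)))).Adj x y ↔ Step (Op (cfgAt A ω)) x y := by
  rw [SimpleGraph.fromRel_adj]
  have hop : ∀ e : Edge, e ∈ Op (cfgAt A ω) ↔ ω ∈ A e := by
    intro e; simp [Op, cfgAt]
  constructor
  · rintro ⟨-, (⟨h, hA⟩ | ⟨h, hA⟩) | (⟨h, hA⟩ | ⟨h, hA⟩)⟩
    · subst h
      exact ⟨adj_right x, by rw [edgeOf_right, hop]; exact hA⟩
    · subst h
      exact ⟨adj_up x, by rw [edgeOf_up, hop]; exact hA⟩
    · subst h
      exact Step.symm ⟨adj_right y, by rw [edgeOf_right, hop]; exact hA⟩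
    · subst h
      exact Step.symm ⟨adj_up y, by rw [edgeOf_up, hop]; exact hA⟩
  · rintro ⟨hadj, he⟩
    refine ⟨hadj.ne, ?_⟩
    rcases adj_cases hadj with h | h | h | h
    all_goals first
      | (subst h
         simp only [edgeOf_right, edgeOf_up, hop] at he
         first
           | exact Or.inl (Or.inl ⟨rfl, he⟩)
           | exact Or.inl (Or.inr ⟨rfl, he⟩))
      | (subst h
         rw [edgeOf_comm] at he
         simp only [edgeOf_right, edgeOf_up, hop] at he
         first
           | exact Or.inr (Or.inl ⟨rfl, he⟩)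
           | exact Or.inr (Or.inr ⟨rfl, he⟩))

theorem graph_chain {Ω : Type} (A : (ℤ × ℤ) × Bool → Set Ω) (ω : Ω) (l : List (ℤ × ℤ)) :
    l.IsChain (SimpleGraph.fromRel (fun x y : ℤ × ℤ =>
        (y = (x.1 + 1, x.2) ∧ ω ∈ A (x, false)) ∨
        (y = (x.1, x.2 + 1) ∧ ω ∈ A (x, true)))).Adj ↔ l.IsChain (Step (Op (cfgAt A ω))) := by
  have h : (SimpleGraph.fromRel (fun x y : ℤ × ℤ =>
        (y = (x.1 + 1, x.2) ∧ ω ∈ A (x, false)) ∨
        (y = (x.1, x.2 + 1) ∧ ω ∈ A (x, true)))).Adj = Step (Op (cfgAt A ω)) := by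
    funext x y
    exact propext (graph_adj A ω x y)
  rw [h]

theorem graph_conn {Ω : Type} (A : (ℤ × ℤ) × Bool → Set Ω) (ω : Ω) (v w : ℤ × ℤ) :
    (SimpleGraph.fromRel (fun x y : ℤ × ℤ =>
        (y = (x.1 + 1, x.2) ∧ ω ∈ A (x, false)) ∨
        (y = (x.1, x.2 + 1) ∧ ω ∈ A (x, true)))).Reachable v w ↔ Conn (Op (cfgAt A ω)) v w := by
  constructor
  · rintro ⟨q⟩
    refine ⟨q.support, (graph_chain A ω _).1 q.isChain_adj_support, ?_, ?_⟩
    · rw [List.head?_eq_some_head q.support_ne_nil, q.head_support]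
    · rw [List.getLast?_eq_some_getLast q.support_ne_nil, q.getLast_support]
  · rintro ⟨l, hc, hh, hl⟩
    have hne : l ≠ [] := by
      rintro rfl
      simp at hh
    have h1 : l.head hne = v := by
      rw [List.head?_eq_some_head hne] at hh
      exact Option.some.inj hh
    have h2 : l.getLast hne = w := by
      rw [List.getLast?_eq_some_getLast hne] at hl
      exact Option.some.inj hl
    have q := SimpleGraph.Walk.ofSupport l hne ((graph_chain A ω _).2 hc)
    rw [h1, h2] at q
    exact ⟨q⟩

theorem graph_sig {Ω : Type} (A : (ℤ × ℤ) × Bool → Set Ω) (ω : Ω) (v : ℤ × ℤ) (n : ℕ) :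
    Set.ncard {q : (Σ w : ℤ × ℤ, (SimpleGraph.fromRel (fun x y : ℤ × ℤ =>
        (y = (x.1 + 1, x.2) ∧ ω ∈ A (x, false)) ∨
        (y = (x.1, x.2 + 1) ∧ ω ∈ A (x, true)))).Walk v w) |
        q.2.IsPath ∧ q.2.length = n} = sig (cfgAt A ω) v n := by
  unfold sig
  rw [← Set.ncard_image_of_injective (f := fun q : (Σ w : ℤ × ℤ,
    (SimpleGraph.fromRel (fun x y : ℤ × ℤ =>
        (y = (x.1 + 1, x.2) ∧ ω ∈ A (x, false)) ∨
        (y = (x.1, x.2 + 1) ∧ ω ∈ A (x, true)))).Walk v w) => q.2.support)]
  · congr 1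
    ext l
    simp only [Set.mem_image, Set.mem_ofPred_eq]
    constructor
    · rintro ⟨⟨w, q⟩, ⟨hp, hn⟩, rfl⟩
      refine ⟨(graph_chain A ω _).1 q.isChain_adj_support, hp.support_nodup, ?_, ?_⟩
      · rw [List.head?_eq_some_head q.support_ne_nil, q.head_support]
      · rw [q.length_support, hn]
    · rintro ⟨hc, hnd, hh, hlen⟩
      have hne : l ≠ [] := by
        rintro rfl
        simp at hh
      have h1 : l.head hne = v := by
        rw [List.head?_eq_some_head hne] at hh
        exact Option.some.inj hh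
      subst h1
      refine ⟨⟨_, SimpleGraph.Walk.ofSupport l hne ((graph_chain A ω _).2 hc)⟩, ⟨?_, ?_⟩, ?_⟩
      · rw [SimpleGraph.Walk.isPath_def, SimpleGraph.Walk.support_ofSupport]
        exact hnd
      · rw [SimpleGraph.Walk.length_ofSupport, hlen]
        rfl
      · exact SimpleGraph.Walk.support_ofSupport _ _
  · rintro ⟨w, q⟩ ⟨w', q'⟩ h
    have h' : q.support = q'.support := h
    have hw : w = w' := by
      have h1 := q.getLast_support
      have h2 := q'.getLast_support
      rw [← h1, ← h2]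
      congr 1
    subst hw
    rw [SimpleGraph.Walk.ext_support h']

end Pool.Agent.SAWP
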