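import Pool.Agent.SAWP.Meas

/-!
# SAWP, final part: trivial bounds (module F1)

`sig_pos`: if the cluster of `v` is infinite then `1 ≤ sig ω v n` for all `n` (an infinite, locally finite connected graph has paths of every length: the cluster contains a
vertex at sup distance `≥ n`, a path to it has at least `n` steps, cut it after `n` steps).
`sig_le`: `sig ω v n ≤ 4^n` (each step has at most four choices; induction on `n`, `List.dropLast`).
`LB_zero`: `LB p 0`.
-/

set_option autoImplicit false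

open MeasureTheory

namespace Pool.Agent.SAWP

/-- The walks counted by `sig`. -/
def sigSet (ω : Cfg) (v : V) (n : ℕ) : Set (List V) :=
  {l : List V | l.IsChain (Step (Op ω)) ∧ l.Nodup ∧ l.head? = some v ∧ l.length = n + 1}

lemma sigSet_zero (ω : Cfg) (v : V) : sigSet ω v 0 ⊆ {[v]} := by
  rintro l ⟨-, -, h3, h4⟩
  obtain ⟨a, rfl⟩ := List.length_eq_one_iff.1 h4
  simp only [List.head?_cons, Option.some.injEq] at h3
  rw [h3]
  rfl

lemma sigSet_succ (ω : Cfg) (v : V) (n : ℕ) : sigSet ω v (n + 1) ⊆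
    (((List.cons v '' sigSet ω (v.1 + 1, v.2) n) ∪ (List.cons v '' sigSet ω (v.1, v.2 + 1) n)) ∪
    (List.cons v '' sigSet ω (v.1 - 1, v.2) n)) ∪ (List.cons v '' sigSet ω (v.1, v.2 - 1) n) := by
  rintro l ⟨h1, h2, h3, h4⟩
  match l, h1, h2, h3, h4 with
  | a :: b :: t, h1, h2, h3, h4 =>
    simp only [List.head?_cons, Option.some.injEq] at h3
    subst h3
    rw [List.isChain_cons_cons] at h1
    have hmem : b :: t ∈ sigSet ω b n :=
      ⟨h1.2, (List.nodup_cons.1 h2).2, rfl, by simpa using h4⟩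
    rcases adj_cases h1.1.1 with h | h | h | h
    · subst h
      exact Or.inl (Or.inl (Or.inl ⟨_, hmem, rfl⟩))
    · subst h
      exact Or.inl (Or.inl (Or.inr ⟨_, hmem, rfl⟩))
    · refine Or.inl (Or.inr ⟨_, ?_, rfl⟩)
      have : (a.1 - 1, a.2) = b := by
        rw [h]; simp
      rw [this]
      exact hmem
    · refine Or.inr ⟨_, ?_, rfl⟩
      have : (a.1, a.2 - 1) = b := by
        rw [h]; simp
      rw [this]
      exact hmem

lemma sigSet_finite_and_le (ω : Cfg) (n : ℕ) : ∀ v : V, (sigSet ω v n).Finite ∧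
    (sigSet ω v n).ncard ≤ 4 ^ n := by
  induction n with
  | zero =>
    intro v
    refine ⟨(Set.finite_singleton _).subset (sigSet_zero ω v), ?_⟩
    refine (Set.ncard_le_ncard (sigSet_zero ω v) (Set.finite_singleton _)).trans ?_
    rw [Set.ncard_singleton, pow_zero]
  | succ n ih =>
    intro v
    have f1 := (ih (v.1 + 1, v.2)).1.image (List.cons v)
    have f2 := (ih (v.1, v.2 + 1)).1.image (List.cons v)
    have f3 := (ih (v.1 - 1, v.2)).1.image (List.cons v)
    have f4 := (ih (v.1, v.2 - 1)).1.image (List.cons v)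
    have g1 := (Set.ncard_image_le (f := List.cons v) (ih (v.1 + 1, v.2)).1).trans
      (ih (v.1 + 1, v.2)).2
    have g2 := (Set.ncard_image_le (f := List.cons v) (ih (v.1, v.2 + 1)).1).trans
      (ih (v.1, v.2 + 1)).2
    have g3 := (Set.ncard_image_le (f := List.cons v) (ih (v.1 - 1, v.2)).1).trans
      (ih (v.1 - 1, v.2)).2
    have g4 := (Set.ncard_image_le (f := List.cons v) (ih (v.1, v.2 - 1)).1).trans
      (ih (v.1, v.2 - 1)).2
    have f := ((f1.union f2).union f3).union f4
    refine ⟨f.subset (sigSet_succ ω v n), ?_⟩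
    refine (Set.ncard_le_ncard (sigSet_succ ω v n) f).trans ?_
    have u1 := Set.ncard_union_le ((List.cons v '' sigSet ω (v.1 + 1, v.2) n) ∪
      (List.cons v '' sigSet ω (v.1, v.2 + 1) n) ∪ (List.cons v '' sigSet ω (v.1 - 1, v.2) n))
      (List.cons v '' sigSet ω (v.1, v.2 - 1) n)
    have u2 := Set.ncard_union_le ((List.cons v '' sigSet ω (v.1 + 1, v.2) n) ∪
      (List.cons v '' sigSet ω (v.1, v.2 + 1) n)) (List.cons v '' sigSet ω (v.1 - 1, v.2) n)
    have u3 := Set.ncard_union_le (List.cons v '' sigSet ω (v.1 + 1, v.2) n)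
      (List.cons v '' sigSet ω (v.1, v.2 + 1) n)
    rw [pow_succ]
    omega

theorem sig_pos {ω : Cfg} {v : V} (h : InfCl ω v) (n : ℕ) : 1 ≤ sig ω v n := by
  have h1 : ∃ w, Conn (Op ω) v w ∧ w ∉ box v n := by
    by_contra hcon
    push Not at hcon
    exact h ((box v n).finite_toSet.subset fun w hw => hcon w hw)
  obtain ⟨w, hw, hwb⟩ := h1
  rw [mem_box, not_le] at hwb
  obtain ⟨l, hl⟩ := hw.exists_path
  have h2 := hl.1.nrm_le
  have h3 : n + 1 ≤ l.length := by
    unfold len at h2
    omega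
  have hmem : l.take (n + 1) ∈ sigSet ω v n := by
    refine ⟨hl.1.1.take _, hl.2.sublist (List.take_sublist _ _), ?_, ?_⟩
    · rw [List.head?_take, if_neg (by omega)]
      exact hl.1.2.1
    · rw [List.length_take, min_eq_left h3]
  have h4 : 0 < (sigSet ω v n).ncard :=
    (Set.ncard_pos (sigSet_finite_and_le ω n v).1).2 ⟨_, hmem⟩
  exact h4

theorem sig_le (ω : Cfg) (v : V) (n : ℕ) : sig ω v n ≤ 4 ^ n := (sigSet_finite_and_le ω n v).2

theorem LB_zero (p : unitInterval) : LB p 0 := by
  refine Filter.Eventually.of_forall fun ω v hv ε hε => Filter.Eventually.of_forall fun n => ?_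
  have h1 : (1 : ℝ) ≤ sig ω v n := by exact_mod_cast sig_pos hv n
  refine le_trans ?_ h1
  rw [Real.exp_le_one_iff]
  have : (0 : ℝ) ≤ n := Nat.cast_nonneg n
  nlinarith

end Pool.Agent.SAWP
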